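import Pool.Agent.P.MP_7ede32_ag.Hod.All

open scoped Manifold ContDiff
open Pool.Agent.P.MP_7ede32_ag.Ell Pool.Agent.P.MP_7ede32_ag.Full

namespace Pool.Agent.Results.MP_7ede32_ag.EllAll

theorem result {X : Type} [TopologicalSpace X] [T2Space X] [CompactSpace X] [ConnectedSpace X]
    [ChartedSpace (ℂ × ℂ) X] [IsManifold 𝓘(ℂ, ℂ × ℂ) ω X] (hX : GenType X) (L : PeriodPair)
    (π : X → ℂ ⧸ L.lattice) (hπ : IsHolomorphic L π) (hc : ∀ s, IsConnected (π ⁻¹' {s})) :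
    ∃ (B : Set (ℂ ⧸ L.lattice)) (T : Set (ℂ → X)) (n : ℕ), B.Finite ∧ T.Finite ∧ 0 < n ∧
      (∀ f ∈ T, IsEntire f ∧ (∀ z, π (f z) = L.lattice.mkQ z) ∧
        ∀ w ∈ L.lattice, ∀ z, f (z + n * w) = f z) ∧
      ∀ h : ℂ → X, IsEntire h → (∃ z, h z ≠ h 0) → (∃ s ∈ B, ∀ z, π (h z) = s) ∨
        ∃ f ∈ T, ∃ φ : ℂ → ℂ, Differentiable ℂ φ ∧ h = f ∘ φ := by
  have := ChartedSpace.secondCountable_of_sigmaCompact (ℂ × ℂ) X
  let _ : MetricSpace X := TopologicalSpace.metrizableSpaceMetric X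
  exact Pool.Agent.P.MP_7ede32_ag.Hod.final Pool.Agent.P.MP_7ede32_ag.Hod.aMgB
    Pool.Agent.P.MP_7ede32_ag.Hod.concl_all L π hπ hX hc

end Pool.Agent.Results.MP_7ede32_ag.EllAll
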