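import Pool.Agent.P.MP_7ede32_ag.Bnd.All

open scoped Manifold ContDiff
open Pool.Agent.P.MP_7ede32_ag.Ell Pool.Agent.P.MP_7ede32_ag.Full Pool.Agent.P.MP_7ede32_ag.Bnd

namespace Pool.Agent.Results.MP_7ede32_ag.EllDegree

theorem result {X : Type} [TopologicalSpace X] [T2Space X] [CompactSpace X] [ConnectedSpace X]
    [ChartedSpace (ℂ × ℂ) X] [IsManifold 𝓘(ℂ, ℂ × ℂ) ω X] (hX : GenType X) (L : PeriodPair)
    (π : X → ℂ ⧸ L.lattice) (hπ : IsHolomorphic L π) (hc : ∀ s, IsConnected (π ⁻¹' {s}))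
    (m N : ℕ) (a : Fin N → PluriForm X m) (b : PluriForm X m) (hb : ∃ x, b.val X x ≠ 0) :
    ∃ (Z : Set X) (A : ℕ), IsCurve Z ∧
      ∀ (C : Type) [TopologicalSpace C] [T2Space C] [CompactSpace C] [ConnectedSpace C]
        [ChartedSpace ℂ C] [IsManifold 𝓘(ℂ, ℂ) ω C] (f : C → X),
        MDifferentiable 𝓘(ℂ, ℂ) 𝓘(ℂ, ℂ × ℂ) f → (∃ c c', f c ≠ f c') → (∃ c, f c ∉ Z) →
        2 ≤ genus C ∧
        (∀ s, (∀ c, π (f c) = s) ∨ {c | π (f c) = s}.encard ≤ (A * (genus C - 1) : ℕ)) ∧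
        ∀ t : Fin N → ℂ, (∀ c, ∑ l, t l * (a l).val X (f c) = 0) ∨
          {c | b.val X (f c) ≠ 0 ∧ ∑ l, t l * (a l).val X (f c) = 0}.encard ≤
            (A * (genus C - 1) : ℕ) := by
  have := ChartedSpace.secondCountable_of_sigmaCompact (ℂ × ℂ) X
  let _ : MetricSpace X := TopologicalSpace.metrizableSpaceMetric X
  exact aFinal X hX L π hπ hc m N a b hb

end Pool.Agent.Results.MP_7ede32_ag.EllDegree
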