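import Pool.Agent.P.MP_7ede32_ag.HFin

open Pool.Agent.P.MP_7ede32_ag MvPolynomial

/-- Geometric Bombieri-Lang for general hypersurfaces of large degree. Let `F` be a nonzero form
over `K` whose derivatives `D ^ j F`, `j ≤ n`, along every `k`-derivation `D` of `K` lie in the
span of forms `G 0, …, G e` of degree `d ≥ d₀ (n, e)` outside a fixed hypersurface `Δ = 0` of the
parameter space. Then the hypersurface `F = 0` in projective `(n + 1)`-space has, over every field
`L ⊇ K` finitely generated over `k`, only finitely many points that are not algebraic over `k`. -/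
theorem Pool.Agent.Results.MP_7ede32_ag.GeneralMordell.result (n e : ℕ) :
    ∃ d₀ : ℕ, ∀ d : ℕ, d₀ ≤ d →
      ∃ Δ : MvPolynomial (Fin (e + 1) × {α : Fin (n + 2) →₀ ℕ // α.degree = d}) ℤ, Δ ≠ 0 ∧
        ∀ (k K L : Type) [Field k] [CharZero k] [Field K] [Field L] [Algebra k K] [Algebra K L]
          [Algebra k L] [IsScalarTower k K L] [Algebra.EssFiniteType k L]
          (G : Fin (e + 1) → MvPolynomial (Fin (n + 2)) K) (F : MvPolynomial (Fin (n + 2)) K),
          (∀ i, (G i).IsHomogeneous d) → aeval (fun p => coeff p.2.1 (G p.1)) Δ ≠ 0 → F ≠ 0 →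
          (∀ (D : Derivation k K K) (j : ℕ), j ≤ n → ∃ c : Fin (e + 1) → K,
            ∀ α, D^[j] (coeff α F) = ∑ i, c i * coeff α (G i)) →
          {x : Projectivization L (Fin (n + 2) → L) |
            aeval x.rep F = 0 ∧ ∃ i j, Transcendental k (x.rep i / x.rep j)}.Finite := by
  obtain ⟨d₀, H⟩ := exists_dmach (Fin (n + 2)) (Fin (e + 1)) (k := n) (Fintype.card_fin _)
  refine ⟨d₀, fun d hd => (H d hd).imp fun Δ h => ⟨h.1, ?_⟩⟩
  intro k K L _ _ _ _ _ _ _ _ _ G F hG hΔ hF hD
  have hFh : F.IsHomogeneous d := fun α hα => by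
    obtain ⟨c, hc⟩ := hD 0 0 n.zero_le
    by_contra hne
    refine hα ((hc α).trans (Finset.sum_eq_zero fun j _ => ?_))
    rw [by_contra fun h => hne (hG j (d := α) h), mul_zero]
  have hfin := finite_moving (k := k) (L := L) fun D h0 => h.2 K D G F hG hΔ hF
    (hD (Derivation.mk' ⟨⟨D.D, D.D_add⟩, fun c x => by
      simp [Algebra.smul_def, D.D_mul, h0]⟩ D.D_mul))
  refine (Set.finite_iUnion fun i0 => Set.Finite.of_finite_image
    (f := fun (y : Projectivization L (Fin (n + 2) → L)) i => (y.rep i0)⁻¹ * y.rep i)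
    (s := {y | y.rep i0 ≠ 0 ∧ aeval y.rep F = 0 ∧ ∃ i j, Transcendental k (y.rep i / y.rep j)})
    ((hfin i0).subset ?_) ?_).subset ?_
  · rintro _ ⟨y, ⟨h1, hy, i, j, hij⟩, rfl⟩
    refine ⟨inv_mul_cancel₀ h1, ?_, by_contra fun hne => hij ?_⟩
    · rw [aeval_def, eval₂_scale hFh, ← aeval_def, hy, mul_zero]
    · simp only [Transcendental, not_exists, not_not] at hne
      rw [← mul_div_mul_left _ _ (inv_ne_zero h1), div_eq_mul_inv]
      exact (hne i).mul (hne j).inv
  · rintro y ⟨h1, -⟩ y' ⟨h2, -⟩ h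
    rw [← y.mk_rep, ← y'.mk_rep, Projectivization.mk_eq_mk_iff']
    refine ⟨y.rep i0 * (y'.rep i0)⁻¹, _root_.funext fun i => ?_⟩
    have := congrFun h i
    simp only at this
    rw [Pi.smul_apply, smul_eq_mul, mul_assoc, ← this, mul_inv_cancel_left₀ h1]
  · intro y hy
    obtain ⟨i0, hi0⟩ := Function.ne_iff.mp y.rep_nonzero
    exact Set.mem_iUnion.mpr ⟨i0, hi0, hy⟩
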