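import Pool.Agent.P.MP_7ede32_ag.GCi

open Pool.Agent.P.MP_7ede32_ag MvPolynomial

/-- A complete intersection of `c` forms of degrees `d i` in projective `(n + c)`-space with
`∑ d i ≥ 2 n + c + 2`, whose coefficients are algebraically independent over `k`, has finitely
many points over every finitely generated field extension `K` of `k` that contains them. -/
theorem Pool.Agent.Results.MP_7ede32_ag.GenericMordell.result
    (n c : ℕ) (d : Fin c → ℕ) (hd : 2 * n + c + 2 ≤ ∑ i, d i)
    (k K : Type) [Field k] [CharZero k] [Field K] [Algebra k K] [Algebra.EssFiniteType k K]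
    (F : Fin c → MvPolynomial (Fin (n + c + 1)) K) (hF : ∀ i, (F i).IsHomogeneous (d i))
    (hgen : AlgebraicIndependent k
      fun p : Σ i : Fin c, {α : Fin (n + c + 1) →₀ ℕ // α.degree = d i} => coeff p.2.1 (F p.1)) :
    {x : Projectivization K (Fin (n + c + 1) → K) | ∀ i, eval x.rep (F i) = 0}.Finite := by
  classical
  have : CharZero K := charZero_of_injective_algebraMap (algebraMap k K).injective
  let a : Cf (Fin (n + c + 1)) d → K := fun p => coeff p.2.1 (F p.1)
  have hform : ∀ i, form a i = F i := fun i => by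
    ext β
    rw [coeff_form]
    split_ifs with h
    · rfl
    · exact ((hF i).coeff_eq_zero h).symm
  obtain ⟨s, hs1, hs⟩ := exists_isTranscendenceBasis_superset hgen.to_subtype_range
  have : Finite s := finite_of_isTranscendenceBasis hs
  let _ : Fintype s := Fintype.ofFinite s
  let j : Cf (Fin (n + c + 1)) d ↪ s :=
    ⟨fun p => ⟨a p, hs1 ⟨p, rfl⟩⟩, fun p q h => hgen.injective (congrArg Subtype.val h)⟩
  have hall : ∀ u : K, u ∈ acl (Set.range (algebraMap k K) ∪ Set.range ((↑) : s → K)) := by
    intro u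
    refine mem_acl_of_isAlgebraic (R := Algebra.adjoin k (Set.range ((↑) : s → K)))
      Subtype.val_injective (fun r => ?_) (hs.isAlgebraic.isAlgebraic u)
    have : Algebra.adjoin k (Set.range ((↑) : s → K)) ≤
        ((acl (Set.range (algebraMap k K) ∪ Set.range ((↑) : s → K))).toIntermediateField
          (fun c => subset_acl _ (Or.inl ⟨c, rfl⟩))).toSubalgebra := by
      rw [Algebra.adjoin_le_iff]; exact fun y hy => subset_acl _ (Or.inr hy)
    exact this r.2
  have hfin := fun i0 : Fin (n + c + 1) => (umach_ci (n := n) (d := d) (by simp; omega)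
    (by simpa using hd) i0).finite j _ hs.1 hall
  refine (Set.finite_iUnion fun i0 => Set.Finite.of_finite_image
    (f := fun (y : Projectivization K (Fin (n + c + 1) → K)) i => (y.rep i0)⁻¹ * y.rep i)
    (s := {y | y.rep i0 ≠ 0 ∧ ∀ i, eval y.rep (F i) = 0}) ((hfin i0).subset ?_) ?_).subset ?_
  · rintro _ ⟨y, ⟨h1, hy⟩, rfl⟩
    refine sol_ciEq.mpr ⟨inv_mul_cancel₀ h1, fun i => ?_⟩
    change eval _ (form a i) = 0
    have := eval₂_scale (hF i) (RingHom.id K) y.rep (y.rep i0)⁻¹
    rw [eval₂_id, eval₂_id, hy, mul_zero] at this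
    rw [hform, this]
  · rintro y ⟨h1, -⟩ y' ⟨h2, -⟩ h
    rw [← y.mk_rep, ← y'.mk_rep, Projectivization.mk_eq_mk_iff']
    refine ⟨y.rep i0 * (y'.rep i0)⁻¹, funext fun i => ?_⟩
    have := congrFun h i
    simp only at this
    rw [Pi.smul_apply, smul_eq_mul, mul_assoc, ← this, mul_inv_cancel_left₀ h1]
  · intro y hy
    obtain ⟨i0, hi0⟩ := Function.ne_iff.mp y.rep_nonzero
    exact Set.mem_iUnion.mpr ⟨i0, hi0, hy⟩
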